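import Pool.Agent.TH195.KR.Defs

set_option autoImplicit false

/-! Irreducible characters of `G × C`, `C` abelian. -/

namespace Pool.Agent.TH195.KR

/-- irreducibility of a matrix representation -/
def IsIrr {G : Type} [Group G] {n : ℕ} (ρ : G →* Matrix (Fin n) (Fin n) ℂ) : Prop :=
  ∀ W : Submodule ℂ (Fin n → ℂ), (∀ g : G, ∀ v ∈ W, (ρ g).mulVec v ∈ W) → W = ⊥ ∨ W = ⊤

theorem scalar_of_comm {G : Type} [Group G] {n : ℕ} (hn : 0 < n)
    (ρ : G →* Matrix (Fin n) (Fin n) ℂ) (hρ : IsIrr ρ) (A : Matrix (Fin n) (Fin n) ℂ)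
    (hA : ∀ g, A * ρ g = ρ g * A) : ∃ μ : ℂ, A = μ • (1 : Matrix (Fin n) (Fin n) ℂ) := by
  have : Nonempty (Fin n) := ⟨⟨0, hn⟩⟩
  obtain ⟨μ, hμ⟩ := Module.End.exists_eigenvalue (Matrix.toLin' A)
  refine ⟨μ, ?_⟩
  have key : ∀ v, v ∈ Module.End.eigenspace (Matrix.toLin' A) μ ↔ A.mulVec v = μ • v := by
    intro v
    rw [Module.End.mem_eigenspace_iff, Matrix.toLin'_apply]
  rcases hρ (Module.End.eigenspace (Matrix.toLin' A) μ) (fun g v hv => by
    rw [key] at hv ⊢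
    rw [Matrix.mulVec_mulVec, hA g, ← Matrix.mulVec_mulVec, hv, Matrix.mulVec_smul]) with h | h
  · exact absurd h hμ
  · have h2 : ∀ v, A.mulVec v = μ • v := fun v => (key v).1 (h ▸ Submodule.mem_top)
    apply Matrix.toLin'.injective
    ext v : 2
    simp [h2]

section

variable {p : ℕ} {G C : Type} [Group G] [CommGroup C]

/-- outer tensor product with a linear character -/
def tens {n : ℕ} (ρ : G →* Matrix (Fin n) (Fin n) ℂ) (l : C →* ℂˣ) :
    G × C →* Matrix (Fin n) (Fin n) ℂ where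
  toFun x := (l x.2 : ℂ) • ρ x.1
  map_one' := by simp
  map_mul' x y := by
    simp only [Prod.snd_mul, Prod.fst_mul, map_mul, Units.val_mul, Matrix.smul_mul,
      Matrix.mul_smul, smul_smul]
    rw [mul_comm (l x.2 : ℂ)]

theorem tens_irr {n : ℕ} {ρ : G →* Matrix (Fin n) (Fin n) ℂ} (hρ : IsIrr ρ) (l : C →* ℂˣ) :
    IsIrr (tens ρ l) := by
  intro W hW
  refine hρ W fun g v hv => ?_
  have := hW (g, 1) v hv
  simpa [tens] using this

theorem exists_tens {n : ℕ} (hn : 0 < n) {ρ : G × C →* Matrix (Fin n) (Fin n) ℂ}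
    (hρ : IsIrr ρ) : ∃ (ρ' : G →* Matrix (Fin n) (Fin n) ℂ) (l : C →* ℂˣ),
      IsIrr ρ' ∧ ρ = tens ρ' l := by
  have h1 : ∀ c : C, ∃ μ : ℂ, ρ (1, c) = μ • (1 : Matrix (Fin n) (Fin n) ℂ) := by
    intro c
    refine scalar_of_comm hn ρ hρ _ fun x => ?_
    rw [← map_mul, ← map_mul]
    congr 1
    exact Prod.ext (by simp) (mul_comm _ _)
  choose μ hμ using h1
  have inj : ∀ a b : ℂ, a • (1 : Matrix (Fin n) (Fin n) ℂ) = b • 1 → a = b := by
    intro a b h
    have := congrFun (congrFun h ⟨0, hn⟩) ⟨0, hn⟩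
    simpa using this
  let m : C →* ℂ :=
    { toFun := μ
      map_one' := by
        apply inj
        rw [← hμ 1, one_smul]
        exact map_one ρ
      map_mul' := by
        intro a b
        apply inj
        rw [← hμ (a * b), ← smul_smul, ← hμ b]
        have e : ((1, a * b) : G × C) = (1, a) * (1, b) := Prod.ext (by simp) rfl
        rw [e, map_mul, hμ a, Matrix.smul_mul, one_mul] }
  let ρ' : G →* Matrix (Fin n) (Fin n) ℂ := ρ.comp (MonoidHom.inl G C)
  have hm : ∀ c, (m.toHomUnits c : ℂ) = μ c := fun c => rfl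
  have e : ρ = tens ρ' m.toHomUnits := by
    ext1 x
    show ρ x = (m.toHomUnits x.2 : ℂ) • ρ (x.1, 1)
    have e1 : x = (1, x.2) * (x.1, 1) := Prod.ext (by simp) (by simp)
    rw [hm]
    conv_lhs => rw [e1]
    rw [map_mul, hμ x.2, Matrix.smul_mul, one_mul]
  refine ⟨ρ', m.toHomUnits, ?_, e⟩
  intro W hW
  refine hρ W fun x v hv => ?_
  rw [e]
  show ((m.toHomUnits x.2 : ℂ) • ρ' x.1).mulVec v ∈ W
  rw [Matrix.smul_mulVec]
  exact W.smul_mem _ (hW x.1 v hv)

theorem fact_prod [Finite G] [Finite C] (hp : p.Prime) (hC : (Nat.card C).Coprime p) :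
    (Nat.card (G × C)).factorization p = (Nat.card G).factorization p := by
  rw [Nat.card_prod, Nat.factorization_mul Nat.card_pos.ne' Nat.card_pos.ne', Finsupp.add_apply,
    Nat.factorization_eq_zero_of_not_dvd (n := Nat.card C), add_zero]
  intro h
  exact hp.one_lt.ne' (Nat.Coprime.eq_one_of_dvd hC.symm h)

theorem zp_prod [Finite G] [Finite C] (hp : p.Prime) (hC : (Nat.card C).Coprime p) :
    zp p (G × C) = zp p G * Nat.card C := by
  have hN : NeZero (Monoid.exponent C) := ⟨Monoid.exponent_ne_zero_of_finite⟩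
  have hc : Nat.card (C →* ℂˣ) = Nat.card C :=
    CommGroup.card_monoidHom_of_hasEnoughRootsOfUnity C ℂ
  rw [← hc, zp, zp, ← Nat.card_prod]
  refine (Nat.card_congr (Equiv.ofBijective (fun y : {f : G → ℂ // IsDefectZeroChar p G f} ×
    (C →* ℂˣ) => (⟨fun x => (y.2 x.2 : ℂ) * y.1.1 x.1, ?_⟩ :
      {f : G × C → ℂ // IsDefectZeroChar p (G × C) f})) ⟨?_, ?_⟩)).symm
  · obtain ⟨n, ρ, hn, hd, hi, hf⟩ := y.1.2
    refine ⟨n, tens ρ y.2, hn, ?_, tens_irr hi y.2, ?_⟩
    · rw [fact_prod hp hC]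
      exact hd
    · funext x
      rw [hf]
      show _ = Matrix.trace ((y.2 x.2 : ℂ) • ρ x.1)
      rw [Matrix.trace_smul, smul_eq_mul]
  · rintro ⟨⟨f1, h1⟩, l1⟩ ⟨⟨f2, h2⟩, l2⟩ h
    have h3 : ∀ (g : G) (c : C), (l1 c : ℂ) * f1 g = (l2 c : ℂ) * f2 g := fun g c =>
      congrFun (congrArg Subtype.val h) (g, c)
    have e : f1 = f2 := by
      funext g
      have := h3 g 1
      simpa using this
    subst e
    obtain ⟨n, ρ, hn, hd, hi, hf⟩ := h1
    have h4 : f1 1 ≠ 0 := by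
      rw [hf]
      simp only [map_one, Matrix.trace_one, Fintype.card_fin]
      exact_mod_cast hn.ne'
    have e2 : l1 = l2 := by
      ext c
      exact mul_right_cancel₀ h4 (h3 1 c)
    rw [e2]
  · rintro ⟨f, n, ρ, hn, hd, hi, hf⟩
    obtain ⟨ρ', l, hi', e⟩ := exists_tens hn hi
    rw [fact_prod hp hC] at hd
    refine ⟨(⟨fun g => (ρ' g).trace, n, ρ', hn, hd, hi', rfl⟩, l), Subtype.ext ?_⟩
    funext x
    show (l x.2 : ℂ) * (ρ' x.1).trace = f x
    rw [hf, e]
    show _ = Matrix.trace ((l x.2 : ℂ) • ρ' x.1)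
    rw [Matrix.trace_smul, smul_eq_mul]

theorem err_prod [Finite G] [Finite C] (hp : p.Prime) (hC : (Nat.card C).Coprime p) :
    err p (G × C) = (Nat.card C : ℤ) ^ 2 * err p G := by
  unfold err
  rw [altSum_prod hC, Nat.card_prod, conj_prod, zp_prod hp hC]
  push_cast
  ring

end

end Pool.Agent.TH195.KR
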