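import Mathlib

set_option autoImplicit false

/-! The alternating sum of Knörr and Robinson and direct products with abelian groups of order
prime to `p`. -/

namespace Pool.Agent.TH195.KR

/-- chains (of length at least one) of nontrivial `p`-subgroups -/
def IsPChain (p : ℕ) (G : Type) [Group G] (σ : Finset (Subgroup G)) : Prop :=
  σ.Nonempty ∧ IsChain (· ≤ ·) (σ : Set (Subgroup G)) ∧ ∀ P ∈ σ, IsPGroup p P ∧ P ≠ ⊥

/-- the number of pairs of commuting elements of `G` which normalize all members of `σ` -/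
noncomputable def comPairs (G : Type) [Group G] (σ : Finset (Subgroup G)) : ℕ :=
  Nat.card {x : G × G // x.1 * x.2 = x.2 * x.1 ∧
    ∀ P ∈ σ, x.1 ∈ Subgroup.normalizer (P : Set G) ∧ x.2 ∈ Subgroup.normalizer (P : Set G)}

/-- `|G| χ₂(S_p(G), G)`: the alternating sum over the chains of nontrivial `p`-subgroups of the
numbers of commuting pairs in the stabilizers -/
noncomputable def altSum (p : ℕ) (G : Type) [Group G] : ℤ :=
  ∑ᶠ (σ : Finset (Subgroup G)) (_ : IsPChain p G σ), (-1 : ℤ) ^ (σ.card - 1) * (comPairs G σ : ℤ)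

/-- the irreducible complex characters of `G` of `p`-defect zero -/
def IsDefectZeroChar (p : ℕ) (G : Type) [Group G] (f : G → ℂ) : Prop :=
  ∃ n : ℕ, ∃ ρ : G →* Matrix (Fin n) (Fin n) ℂ,
    0 < n ∧ p ^ ((Nat.card G).factorization p) ∣ n ∧
    (∀ W : Submodule ℂ (Fin n → ℂ),
      (∀ g : G, ∀ v ∈ W, (ρ g).mulVec v ∈ W) → W = ⊥ ∨ W = ⊤) ∧
    f = fun g => (ρ g).trace

/-- `z_p(G)` -/
noncomputable def zp (p : ℕ) (G : Type) [Group G] : ℕ :=
  Nat.card {f : G → ℂ // IsDefectZeroChar p G f}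

/-- `|G|` times the error in the Knörr–Robinson identity -/
noncomputable def err (p : ℕ) (G : Type) [Group G] : ℤ :=
  altSum p G - (Nat.card G : ℤ) * ((Nat.card (ConjClasses G) : ℤ) - (zp p G : ℤ))

section

variable {p : ℕ} {G C : Type} [Group G] [CommGroup C]

/-- the subgroup `P × 1` -/
def up (P : Subgroup G) : Subgroup (G × C) := P.prod ⊥

theorem mem_up {P : Subgroup G} {x : G × C} : x ∈ (up P : Subgroup (G × C)) ↔ x.1 ∈ P ∧ x.2 = 1 := by
  rw [up, Subgroup.mem_prod, Subgroup.mem_bot]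

theorem up_le {P Q : Subgroup G} : (up P : Subgroup (G × C)) ≤ up Q ↔ P ≤ Q := by
  constructor
  · intro h x hx
    exact (mem_up.1 (h (mem_up.2 ⟨hx, rfl⟩ : ((x, 1) : G × C) ∈ up P))).1
  · intro h x hx
    exact mem_up.2 ⟨h (mem_up.1 hx).1, (mem_up.1 hx).2⟩

theorem up_inj : Function.Injective (up : Subgroup G → Subgroup (G × C)) := fun _ _ h =>
  le_antisymm (up_le.1 h.le) (up_le.1 h.ge)

theorem up_bot {P : Subgroup G} : (up P : Subgroup (G × C)) = ⊥ ↔ P = ⊥ := by
  have : (up (⊥ : Subgroup G) : Subgroup (G × C)) = ⊥ := by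
    ext x
    rw [mem_up, Subgroup.mem_bot, Subgroup.mem_bot, Prod.ext_iff]
    exact Iff.rfl
  rw [← this]
  exact up_inj.eq_iff

theorem pgroup_iff {H : Type} [Group H] (P : Subgroup H) :
    IsPGroup p P ↔ ∀ x ∈ P, ∃ k : ℕ, x ^ p ^ k = 1 := by
  constructor
  · intro h x hx
    obtain ⟨k, hk⟩ := h ⟨x, hx⟩
    exact ⟨k, by simpa using congrArg Subtype.val hk⟩
  · rintro h ⟨x, hx⟩
    obtain ⟨k, hk⟩ := h x hx
    exact ⟨k, Subtype.ext (by simpa using hk)⟩

theorem up_pgroup {P : Subgroup G} : IsPGroup p (up P : Subgroup (G × C)) ↔ IsPGroup p P := by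
  rw [pgroup_iff, pgroup_iff]
  constructor
  · intro h x hx
    obtain ⟨k, hk⟩ := h (x, 1) (mem_up.2 ⟨hx, rfl⟩)
    exact ⟨k, congrArg Prod.fst hk⟩
  · intro h x hx
    obtain ⟨k, hk⟩ := h x.1 (mem_up.1 hx).1
    refine ⟨k, Prod.ext hk ?_⟩
    show x.2 ^ p ^ k = 1
    rw [(mem_up.1 hx).2, one_pow]

theorem exists_up [Finite C] (hC : (Nat.card C).Coprime p) (Q : Subgroup (G × C))
    (hQ : IsPGroup p Q) : ∃ P : Subgroup G, up P = Q := by
  rw [pgroup_iff] at hQ
  have h1 : ∀ x ∈ Q, x.2 = 1 := by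
    intro x hx
    obtain ⟨k, hk⟩ := hQ x hx
    have h2 : x.2 ^ p ^ k = 1 := congrArg Prod.snd hk
    have h3 : orderOf x.2 ∣ Nat.gcd (Nat.card C) (p ^ k) :=
      Nat.dvd_gcd (orderOf_dvd_natCard _) (orderOf_dvd_of_pow_eq_one h2)
    rw [Nat.Coprime.gcd_eq_one (hC.pow_right k)] at h3
    exact orderOf_eq_one_iff.1 (Nat.dvd_one.1 h3)
  refine ⟨Q.map (MonoidHom.fst G C), ?_⟩
  ext x
  rw [mem_up, Subgroup.mem_map]
  constructor
  · rintro ⟨⟨y, hy, hyx⟩, hx⟩
    have : y = x := Prod.ext hyx ((h1 y hy).trans hx.symm)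
    rwa [← this]
  · intro hx
    exact ⟨⟨x, hx, rfl⟩, h1 x hx⟩

theorem up_normalizer {P : Subgroup G} {x : G × C} :
    x ∈ Subgroup.normalizer ((up P : Subgroup (G × C)) : Set (G × C)) ↔
      x.1 ∈ Subgroup.normalizer (P : Set G) := by
  rw [Subgroup.mem_normalizer_iff, Subgroup.mem_normalizer_iff]
  constructor
  · intro h y
    have := h (y, 1)
    rw [mem_up, mem_up] at this
    have e : (x * (y, 1) * x⁻¹).2 = 1 := by
      show x.2 * 1 * x.2⁻¹ = 1
      group
    constructor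
    · intro hy
      exact (this.1 ⟨hy, rfl⟩).1
    · intro hy
      exact (this.2 ⟨hy, e⟩).1
  · intro h y
    rw [mem_up, mem_up]
    have e : (x * y * x⁻¹).2 = y.2 := by
      show x.2 * y.2 * x.2⁻¹ = y.2
      rw [mul_comm x.2, mul_inv_cancel_right]
    rw [e]
    exact and_congr_left fun _ => h y.1

open Classical in
/-- the chain `σ × 1` -/
noncomputable def upc (σ : Finset (Subgroup G)) : Finset (Subgroup (G × C)) := σ.image up

theorem mem_upc {σ : Finset (Subgroup G)} {Q : Subgroup (G × C)} :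
    Q ∈ (upc σ : Finset (Subgroup (G × C))) ↔ ∃ P ∈ σ, up P = Q := by
  classical
  rw [upc, Finset.mem_image]

theorem upc_inj : Function.Injective (upc : Finset (Subgroup G) → Finset (Subgroup (G × C))) := by
  classical
  exact Finset.image_injective up_inj

theorem card_upc (σ : Finset (Subgroup G)) :
    (upc σ : Finset (Subgroup (G × C))).card = σ.card := by
  classical
  exact Finset.card_image_of_injective _ up_inj

theorem chain_upc {σ : Finset (Subgroup G)} :
    IsPChain p (G × C) (upc σ) ↔ IsPChain p G σ := by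
  unfold IsPChain
  refine and_congr ?_ (and_congr ?_ ?_)
  · rw [← Finset.card_pos, card_upc, Finset.card_pos]
  · constructor
    · intro h P hP Q hQ hne
      have := h (mem_upc.2 ⟨P, hP, rfl⟩ : (up P : Subgroup (G × C)) ∈ (upc σ : Finset _))
        (mem_upc.2 ⟨Q, hQ, rfl⟩ : (up Q : Subgroup (G × C)) ∈ (upc σ : Finset _))
        (fun e => hne (up_inj e))
      exact this.imp up_le.1 up_le.1
    · intro h P hP Q hQ hne
      obtain ⟨P', hP', rfl⟩ := mem_upc.1 hP
      obtain ⟨Q', hQ', rfl⟩ := mem_upc.1 hQ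
      have := h hP' hQ' (fun e => hne (by rw [e]))
      exact this.imp up_le.2 up_le.2
  · constructor
    · intro h P hP
      have := h (up P) (mem_upc.2 ⟨P, hP, rfl⟩)
      exact ⟨up_pgroup.1 this.1, fun e => this.2 (up_bot.2 e)⟩
    · intro h Q hQ
      obtain ⟨P, hP, rfl⟩ := mem_upc.1 hQ
      exact ⟨up_pgroup.2 (h P hP).1, fun e => (h P hP).2 (up_bot.1 e)⟩

theorem exists_upc [Finite C] (hC : (Nat.card C).Coprime p) (τ : Finset (Subgroup (G × C)))
    (hτ : IsPChain p (G × C) τ) : ∃ σ : Finset (Subgroup G), upc σ = τ := by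
  classical
  choose! f hf using fun (Q : Subgroup (G × C)) (hQ : IsPGroup p Q) => exists_up hC Q hQ
  refine ⟨τ.image f, ?_⟩
  ext Q
  rw [mem_upc]
  constructor
  · rintro ⟨P, hP, rfl⟩
    obtain ⟨Q, hQ, rfl⟩ := Finset.mem_image.1 hP
    rw [hf Q (hτ.2.2 Q hQ).1]
    exact hQ
  · intro hQ
    exact ⟨f Q, Finset.mem_image_of_mem _ hQ, hf Q (hτ.2.2 Q hQ).1⟩

theorem comPairs_upc (σ : Finset (Subgroup G)) :
    comPairs (G × C) (upc σ) = Nat.card C ^ 2 * comPairs G σ := by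
  unfold comPairs
  rw [pow_two, ← Nat.card_prod, ← Nat.card_prod]
  refine Nat.card_congr
    { toFun := fun x => ((x.1.1.2, x.1.2.2), ⟨(x.1.1.1, x.1.2.1),
        congrArg Prod.fst x.2.1, fun P hP => ?_⟩)
      invFun := fun y => ⟨((y.2.1.1, y.1.1), (y.2.1.2, y.1.2)),
        Prod.ext y.2.2.1 (mul_comm _ _), fun Q hQ => ?_⟩
      left_inv := fun x => rfl
      right_inv := fun y => rfl }
  · have := x.2.2 (up P) (mem_upc.2 ⟨P, hP, rfl⟩)
    exact ⟨(up_normalizer (x := x.1.1)).1 this.1, (up_normalizer (x := x.1.2)).1 this.2⟩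
  · obtain ⟨P, hP, rfl⟩ := mem_upc.1 hQ
    exact ⟨(up_normalizer (x := (y.2.1.1, y.1.1))).2 (y.2.2.2 P hP).1,
      (up_normalizer (x := (y.2.1.2, y.1.2))).2 (y.2.2.2 P hP).2⟩

theorem altSum_prod [Finite C] (hC : (Nat.card C).Coprime p) :
    altSum p (G × C) = (Nat.card C : ℤ) ^ 2 * altSum p G := by
  unfold altSum
  have e : {τ : Finset (Subgroup (G × C)) | IsPChain p (G × C) τ} =
      upc '' {σ : Finset (Subgroup G) | IsPChain p G σ} := by
    ext τ
    constructor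
    · intro h
      obtain ⟨σ, rfl⟩ := exists_upc hC τ h
      exact ⟨σ, chain_upc.1 h, rfl⟩
    · rintro ⟨σ, h, rfl⟩
      exact chain_upc.2 h
  have h1 : (∑ᶠ (τ : Finset (Subgroup (G × C))) (_ : IsPChain p (G × C) τ),
      (-1 : ℤ) ^ (τ.card - 1) * (comPairs (G × C) τ : ℤ)) =
      ∑ᶠ (τ : Finset (Subgroup (G × C))) (_ : τ ∈ upc '' {σ : Finset (Subgroup G) | IsPChain p G σ}),
      (-1 : ℤ) ^ (τ.card - 1) * (comPairs (G × C) τ : ℤ) := by
    rw [← e]
    rfl
  rw [h1, finsum_mem_image (upc_inj.injOn)]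
  have h2 : (∑ᶠ (σ : Finset (Subgroup G)) (_ : IsPChain p G σ),
      (-1 : ℤ) ^ (σ.card - 1) * (comPairs G σ : ℤ)) =
      ∑ᶠ (σ : Finset (Subgroup G)) (_ : σ ∈ {σ : Finset (Subgroup G) | IsPChain p G σ}),
      (-1 : ℤ) ^ (σ.card - 1) * (comPairs G σ : ℤ) := rfl
  rw [h2, mul_finsum_mem]
  refine finsum_mem_congr rfl fun σ _ => ?_
  rw [card_upc, comPairs_upc]
  push_cast
  ring

theorem conj_prod [Finite G] [Finite C] :
    Nat.card (ConjClasses (G × C)) = Nat.card (ConjClasses G) * Nat.card C := by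
  have h1 := card_comm_eq_card_conjClasses_mul_card (G × C)
  have h2 := card_comm_eq_card_conjClasses_mul_card G
  have h3 : Nat.card {q : (G × C) × (G × C) // Commute q.1 q.2} =
      Nat.card C ^ 2 * Nat.card {q : G × G // Commute q.1 q.2} := by
    rw [pow_two, ← Nat.card_prod, ← Nat.card_prod]
    exact Nat.card_congr
      { toFun := fun x => ((x.1.1.2, x.1.2.2), ⟨(x.1.1.1, x.1.2.1), congrArg Prod.fst x.2⟩)
        invFun := fun y => ⟨((y.2.1.1, y.1.1), (y.2.1.2, y.1.2)), Prod.ext y.2.2 (mul_comm _ _)⟩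
        left_inv := fun x => rfl
        right_inv := fun y => rfl }
  rw [h3, h2, Nat.card_prod] at h1
  have hpos : 0 < Nat.card G * Nat.card C := Nat.mul_pos Nat.card_pos Nat.card_pos
  refine Nat.eq_of_mul_eq_mul_right hpos ?_
  rw [← h1]
  ring

end

end Pool.Agent.TH195.KR
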