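import Mathlib

set_option autoImplicit false

/-! Higman's criterion for the projectivity of a representation. -/

namespace Pool.Agent.TH195.KR

open scoped BigOperators

variable {k H : Type} [Field k] [Group H] {n : ℕ}

theorem smul_asModule [Fintype H] (ρ : Representation k H (Fin n → k)) (a : MonoidAlgebra k H)
    (x : ρ.asModule) : a • x =
      ρ.asModuleEquiv.symm (∑ g : H, a.coeff g • ρ g (ρ.asModuleEquiv x)) := by
  apply ρ.asModuleEquiv.injective
  rw [Representation.asModuleEquiv_map_smul, Representation.asAlgebraHom_def,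
    MonoidAlgebra.lift_apply, LinearEquiv.apply_symm_apply, Finsupp.sum_fintype]
  · simp
  · intro i
    simp

/-- the free cover -/
noncomputable def cov (ρ : Representation k H (Fin n → k)) :
    (Fin n → MonoidAlgebra k H) →ₗ[MonoidAlgebra k H] ρ.asModule :=
  Fintype.linearCombination (MonoidAlgebra k H)
    (fun i => ρ.asModuleEquiv.symm (Pi.single i (1 : k)))

theorem cov_apply [Fintype H] (ρ : Representation k H (Fin n → k))
    (f : Fin n → MonoidAlgebra k H) :
    ρ.asModuleEquiv (cov ρ f) = ∑ g : H, ρ g (fun i => (f i).coeff g) := by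
  rw [cov, Fintype.linearCombination_apply, map_sum]
  have h1 : ∀ i, ρ.asModuleEquiv (f i • ρ.asModuleEquiv.symm (Pi.single i (1 : k))) =
      ∑ g : H, (f i).coeff g • ρ g (Pi.single i (1 : k)) := by
    intro i
    rw [smul_asModule, LinearEquiv.apply_symm_apply, LinearEquiv.apply_symm_apply]
  rw [Finset.sum_congr rfl fun i _ => h1 i, Finset.sum_comm]
  refine Finset.sum_congr rfl fun g _ => ?_
  have h2 : (fun i => (f i).coeff g) = ∑ i, (f i).coeff g • (Pi.single i (1 : k) : Fin n → k) := by
    funext j
    simp [Finset.sum_apply, Pi.single_apply]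
  rw [h2, map_sum]
  simp only [map_smul]

theorem cov_surj [Fintype H] (ρ : Representation k H (Fin n → k)) :
    Function.Surjective (cov ρ) := by
  classical
  intro x
  refine ⟨fun i => MonoidAlgebra.single 1 (ρ.asModuleEquiv x i), ρ.asModuleEquiv.injective ?_⟩
  rw [cov_apply, Finset.sum_eq_single (1 : H)]
  · simp
  · intro g _ hg
    have : (fun i => (MonoidAlgebra.single (1 : H) (ρ.asModuleEquiv x i)).coeff g) =
        (0 : Fin n → k) := by
      funext i
      simp [MonoidAlgebra.coeff_single, hg.symm]
    rw [this, map_zero]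
  · intro h
    exact absurd (Finset.mem_univ _) h

/-- Higman's criterion -/
theorem higman [Fintype H] (ρ : Representation k H (Fin n → k)) :
    Module.Projective (MonoidAlgebra k H) ρ.asModule ↔
      ∃ θ : (Fin n → k) →ₗ[k] (Fin n → k), ∀ v, ∑ g : H, ρ g (θ (ρ g⁻¹ v)) = v := by
  rw [Module.Projective.iff_split_of_projective (cov ρ) (cov_surj ρ)]
  constructor
  · rintro ⟨i, hi⟩
    refine ⟨{ toFun := fun v j => (i (ρ.asModuleEquiv.symm v) j).coeff 1
              map_add' := fun v w => by
                funext j
                simp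
              map_smul' := fun c v => by
                funext j
                have h1 : ρ.asModuleEquiv.symm (c • v) =
                    algebraMap k (MonoidAlgebra k H) c • ρ.asModuleEquiv.symm v :=
                  Representation.asModuleEquiv_symm_map_smul ρ c v
                rw [h1, map_smul]
                simp }, ?_⟩
    intro v
    have h2 := congrArg ρ.asModuleEquiv (LinearMap.congr_fun hi (ρ.asModuleEquiv.symm v))
    rw [LinearMap.comp_apply, cov_apply, LinearMap.id_apply, LinearEquiv.apply_symm_apply] at h2
    refine Eq.trans (Finset.sum_congr rfl fun g _ => ?_) h2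
    congr 1
    funext j
    show (i (ρ.asModuleEquiv.symm (ρ g⁻¹ v)) j).coeff 1 = _
    rw [Representation.asModuleEquiv_symm_map_rho, map_smul]
    show (MonoidAlgebra.of k H g⁻¹ * i (ρ.asModuleEquiv.symm v) j).coeff 1 = _
    rw [MonoidAlgebra.of_apply]
    simp
  · rintro ⟨θ, hθ⟩
    let f : ρ.asModule →ₗ[k] (Fin n → MonoidAlgebra k H) :=
      { toFun := fun x j => ∑ g : H, MonoidAlgebra.single g (θ (ρ g⁻¹ (ρ.asModuleEquiv x)) j)
        map_add' := fun x y => by
          funext j
          simp [Finset.sum_add_distrib]
        map_smul' := fun c x => by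
          funext j
          simp [Finset.smul_sum] }
    refine ⟨MonoidAlgebra.equivariantOfLinearOfComm f ?_, ?_⟩
    · intro h x
      funext j
      show ∑ g : H, MonoidAlgebra.single g (θ (ρ g⁻¹ (ρ.asModuleEquiv
        (MonoidAlgebra.single h (1 : k) • x))) j) = MonoidAlgebra.single h (1 : k) *
        ∑ g : H, MonoidAlgebra.single g (θ (ρ g⁻¹ (ρ.asModuleEquiv x)) j)
      rw [Representation.asModuleEquiv_map_smul, Representation.asAlgebraHom_single_one,
        Finset.mul_sum]
      refine (Fintype.sum_equiv (Equiv.mulLeft h) _ _ fun g => ?_).symm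
      rw [MonoidAlgebra.single_mul_single, one_mul, Equiv.coe_mulLeft, mul_inv_rev, map_mul]
      simp
    · ext x : 1
      apply ρ.asModuleEquiv.injective
      rw [LinearMap.comp_apply, cov_apply, LinearMap.id_apply]
      conv_rhs => rw [← hθ (ρ.asModuleEquiv x)]
      refine Finset.sum_congr rfl fun g _ => ?_
      congr 1
      funext j
      show (∑ g : H, MonoidAlgebra.single g (θ (ρ g⁻¹ (ρ.asModuleEquiv x)) j)).coeff g = _
      classical
      simp [MonoidAlgebra.coeff_single, Finsupp.single_apply]

end Pool.Agent.TH195.KR
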