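import Pool.Agent.TH195.KR.Chars

set_option autoImplicit false

/-! The asymptotic form of the Knörr–Robinson identity. -/

namespace Pool.Agent.TH195.KR

/-- the cyclic group of order `k p + 1` -/
abbrev Cy (p k : ℕ) : Type := Multiplicative (ZMod (k * p + 1))

theorem card_Cy (p k : ℕ) : Nat.card (Cy p k) = k * p + 1 := by
  have : Nat.card (Multiplicative (ZMod (k * p + 1))) = Nat.card (ZMod (k * p + 1)) := rfl
  rw [this, Nat.card_zmod]

theorem coprime_Cy (p k : ℕ) : (Nat.card (Cy p k)).Coprime p := by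
  rw [card_Cy, Nat.coprime_comm]
  simp

/-- Amplification by products with cyclic groups of order prime to `p`. -/
theorem le_zero_of {p : ℕ} (hp : p.Prime) {G : Type} [Group G] [Finite G]
    (h : ∀ ε : ℝ, 0 < ε → ∃ N : ℕ, ∀ k : ℕ, N ≤ k →
      (err p (G × Cy p k) : ℝ) ≤ ε * (Nat.card (G × Cy p k) : ℝ) ^ 2) : err p G ≤ 0 := by
  by_contra hcon
  push Not at hcon
  have h1 : (1 : ℝ) ≤ err p G := by exact_mod_cast hcon
  have hG : (0 : ℝ) < Nat.card G := by exact_mod_cast Nat.card_pos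
  obtain ⟨N, hN⟩ := h (1 / (2 * (Nat.card G : ℝ) ^ 2)) (by positivity)
  have h2 := hN N le_rfl
  rw [err_prod hp (coprime_Cy p N), Nat.card_prod, Int.cast_mul, Int.cast_pow, Int.cast_natCast,
    Nat.cast_mul] at h2
  have hC : (0 : ℝ) < Nat.card (Cy p N) := by exact_mod_cast Nat.card_pos
  have h3 : 1 / (2 * (Nat.card G : ℝ) ^ 2) * ((Nat.card G : ℝ) * (Nat.card (Cy p N) : ℝ)) ^ 2 =
      (Nat.card (Cy p N) : ℝ) ^ 2 * (1 / 2) := by
    field_simp
  rw [h3] at h2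
  have h4 := le_of_mul_le_mul_left h2 (by positivity)
  linarith

theorem zero_le_of {p : ℕ} (hp : p.Prime) {G : Type} [Group G] [Finite G]
    (h : ∀ ε : ℝ, 0 < ε → ∃ N : ℕ, ∀ k : ℕ, N ≤ k →
      -(ε * (Nat.card (G × Cy p k) : ℝ) ^ 2) ≤ (err p (G × Cy p k) : ℝ)) : 0 ≤ err p G := by
  by_contra hcon
  push Not at hcon
  have h1 : (err p G : ℝ) ≤ -1 := by
    have : err p G ≤ -1 := by omega
    exact_mod_cast this
  have hG : (0 : ℝ) < Nat.card G := by exact_mod_cast Nat.card_pos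
  obtain ⟨N, hN⟩ := h (1 / (2 * (Nat.card G : ℝ) ^ 2)) (by positivity)
  have h2 := hN N le_rfl
  rw [err_prod hp (coprime_Cy p N), Nat.card_prod, Int.cast_mul, Int.cast_pow, Int.cast_natCast,
    Nat.cast_mul] at h2
  have hC : (0 : ℝ) < Nat.card (Cy p N) := by exact_mod_cast Nat.card_pos
  have h3 : 1 / (2 * (Nat.card G : ℝ) ^ 2) * ((Nat.card G : ℝ) * (Nat.card (Cy p N) : ℝ)) ^ 2 =
      (Nat.card (Cy p N) : ℝ) ^ 2 * (1 / 2) := by
    field_simp
  rw [h3] at h2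
  have h4 : (Nat.card (Cy p N) : ℝ) ^ 2 * (-(1 / 2)) ≤
      (Nat.card (Cy p N) : ℝ) ^ 2 * (err p G : ℝ) := by linarith
  have h5 := le_of_mul_le_mul_left h4 (by positivity)
  linarith

theorem le_card_prod {p k : ℕ} (hp : p.Prime) {G : Type} [Group G] [Finite G] :
    k ≤ Nat.card (G × Cy p k) := by
  rw [Nat.card_prod, card_Cy]
  have h1 : 0 < Nat.card G := Nat.card_pos
  have h2 : 0 < p := hp.pos
  nlinarith [Nat.zero_le k, Nat.zero_le (k * p), Nat.le_mul_of_pos_right k h2,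
    Nat.le_mul_of_pos_left (k * p + 1) h1]

end Pool.Agent.TH195.KR
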