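import Pool.Agent.TH195.KR.Main

set_option autoImplicit false

/-! Irreducible characters with given degree up to sign modulo `p`. -/

namespace Pool.Agent.TH195.KR

/-- the irreducible complex characters of `G` of degree congruent to `± r` modulo `p` -/
def IsCharMod (p : ℕ) (r : ZMod p) (G : Type) [Group G] (f : G → ℂ) : Prop :=
  ∃ n : ℕ, ∃ ρ : G →* Matrix (Fin n) (Fin n) ℂ, 0 < n ∧ IsIrr ρ ∧ (f = fun g => (ρ g).trace) ∧
    ((n : ZMod p) = r ∨ (n : ZMod p) = -r)

/-- their number -/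
noncomputable def mr (p : ℕ) (r : ZMod p) (G : Type) [Group G] : ℕ :=
  Nat.card {f : G → ℂ // IsCharMod p r G f}

/-- the irreducible complex characters of `G` of degree prime to `p` -/
def IsPChar (p : ℕ) (G : Type) [Group G] (f : G → ℂ) : Prop :=
  ∃ n : ℕ, ∃ ρ : G →* Matrix (Fin n) (Fin n) ℂ, 0 < n ∧ IsIrr ρ ∧ (f = fun g => (ρ g).trace) ∧
    ¬ p ∣ n

theorem mr_prod {p : ℕ} {r : ZMod p} {G C : Type} [Group G] [CommGroup C] [Finite C] :
    mr p r (G × C) = mr p r G * Nat.card C := by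
  have hN : NeZero (Monoid.exponent C) := ⟨Monoid.exponent_ne_zero_of_finite⟩
  have hc : Nat.card (C →* ℂˣ) = Nat.card C :=
    CommGroup.card_monoidHom_of_hasEnoughRootsOfUnity C ℂ
  rw [← hc, mr, mr, ← Nat.card_prod]
  refine (Nat.card_congr (Equiv.ofBijective (fun y : {f : G → ℂ // IsCharMod p r G f} ×
    (C →* ℂˣ) => (⟨fun x => (y.2 x.2 : ℂ) * y.1.1 x.1, ?_⟩ :
      {f : G × C → ℂ // IsCharMod p r (G × C) f})) ⟨?_, ?_⟩)).symm
  · obtain ⟨n, ρ, hn, hi, hf, hd⟩ := y.1.2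
    refine ⟨n, tens ρ y.2, hn, tens_irr hi y.2, ?_, hd⟩
    funext x
    rw [hf]
    show _ = Matrix.trace ((y.2 x.2 : ℂ) • ρ x.1)
    rw [Matrix.trace_smul, smul_eq_mul]
  · rintro ⟨⟨f1, h1⟩, l1⟩ ⟨⟨f2, h2⟩, l2⟩ h
    have h3 : ∀ (g : G) (c : C), (l1 c : ℂ) * f1 g = (l2 c : ℂ) * f2 g := fun g c =>
      congrFun (congrArg Subtype.val h) (g, c)
    have e : f1 = f2 := by
      funext g
      have := h3 g 1
      simpa using this
    subst e
    obtain ⟨n, ρ, hn, hi, hf, hd⟩ := h1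
    have h4 : f1 1 ≠ 0 := by
      rw [hf]
      simp only [map_one, Matrix.trace_one, Fintype.card_fin]
      exact_mod_cast hn.ne'
    have e2 : l1 = l2 := by
      ext c
      exact mul_right_cancel₀ h4 (h3 1 c)
    rw [e2]
  · rintro ⟨f, n, ρ, hn, hi, hf, hd⟩
    obtain ⟨ρ', l, hi', e⟩ := exists_tens hn hi
    refine ⟨(⟨fun g => (ρ' g).trace, n, ρ', hn, hi', rfl, hd⟩, l), Subtype.ext ?_⟩
    funext x
    show (l x.2 : ℂ) * (ρ' x.1).trace = f x
    rw [hf, e]
    show _ = Matrix.trace ((l x.2 : ℂ) • ρ' x.1)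
    rw [Matrix.trace_smul, smul_eq_mul]

theorem comp_irr {G H : Type} [Group G] [Group H] {n : ℕ} {ρ : H →* Matrix (Fin n) (Fin n) ℂ}
    (hρ : IsIrr ρ) (e : G ≃* H) : IsIrr (ρ.comp e.toMonoidHom) := by
  intro W hW
  refine hρ W fun h v hv => ?_
  have := hW (e.symm h) v hv
  simpa using this

theorem charMod_comp {p : ℕ} {r : ZMod p} {G H : Type} [Group G] [Group H] (e : G ≃* H)
    {f : H → ℂ} (hf : IsCharMod p r H f) : IsCharMod p r G (fun g => f (e g)) := by
  obtain ⟨n, ρ, hn, hi, hf, hd⟩ := hf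
  exact ⟨n, ρ.comp e.toMonoidHom, hn, comp_irr hi e, by subst hf; rfl, hd⟩

theorem mr_congr {p : ℕ} {r : ZMod p} {G H : Type} [Group G] [Group H] (e : G ≃* H) :
    mr p r G = mr p r H :=
  Nat.card_congr
    { toFun := fun f => ⟨fun h => f.1 (e.symm h), charMod_comp e.symm f.2⟩
      invFun := fun f => ⟨fun g => f.1 (e g), charMod_comp e f.2⟩
      left_inv := fun f => by
        apply Subtype.ext
        funext g
        simp
      right_inv := fun f => by
        apply Subtype.ext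
        funext g
        simp }

/-- the normalizer of `P × 1` -/
def normEquiv {G C : Type} [Group G] [CommGroup C] (P : Subgroup G) :
    Subgroup.normalizer ((up P : Subgroup (G × C)) : Set (G × C)) ≃*
      Subgroup.normalizer (P : Set G) × C where
  toFun x := (⟨x.1.1, up_normalizer.1 x.2⟩, x.1.2)
  invFun y := ⟨(y.1.1, y.2), up_normalizer.2 y.1.2⟩
  left_inv _ := rfl
  right_inv _ := rfl
  map_mul' _ _ := rfl

/-- the Sylow subgroup `P × 1` -/
def upS {p : ℕ} {G C : Type} [Group G] [CommGroup C] [Finite C] (hC : (Nat.card C).Coprime p)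
    (P : Sylow p G) : Sylow p (G × C) where
  toSubgroup := up P.toSubgroup
  isPGroup' := up_pgroup.2 P.isPGroup'
  is_maximal' := by
    intro Q hQ hle
    obtain ⟨P', rfl⟩ := exists_up hC Q hQ
    rw [P.is_maximal' (up_pgroup.1 hQ) (up_le.1 hle)]

theorem mr_norm {p : ℕ} {r : ZMod p} {G C : Type} [Group G] [CommGroup C] [Finite C]
    (hC : (Nat.card C).Coprime p) (P : Sylow p G) :
    mr p r (Subgroup.normalizer ((upS hC P : Sylow p (G × C)).toSubgroup : Set (G × C))) =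
      mr p r (Subgroup.normalizer (P.toSubgroup : Set G)) * Nat.card C := by
  rw [← mr_prod]
  exact mr_congr (normEquiv P.toSubgroup)

/-! ### finiteness of the set of irreducible characters -/

theorem dim_le {G : Type} [Group G] [Finite G] {n : ℕ} (hn : 0 < n)
    {ρ : G →* Matrix (Fin n) (Fin n) ℂ} (hρ : IsIrr ρ) : n ≤ Nat.card G := by
  classical
  have := Fintype.ofFinite G
  let v : Fin n → ℂ := Pi.single ⟨0, hn⟩ 1
  have hv : v ≠ 0 := by
    intro h
    have := congrFun h ⟨0, hn⟩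
    simp [v] at this
  let b : G → (Fin n → ℂ) := fun g => (ρ g).mulVec v
  have hW : Submodule.span ℂ (Set.range b) = ⊤ := by
    refine (hρ (Submodule.span ℂ (Set.range b)) ?_).resolve_left ?_
    · intro g w hw
      induction hw using Submodule.span_induction with
      | mem x hx =>
        obtain ⟨h, rfl⟩ := hx
        apply Submodule.subset_span
        refine ⟨g * h, ?_⟩
        show (ρ (g * h)).mulVec v = (ρ g).mulVec ((ρ h).mulVec v)
        rw [map_mul, Matrix.mulVec_mulVec]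
      | zero => simp
      | add x y _ _ hx hy =>
        rw [Matrix.mulVec_add]
        exact Submodule.add_mem _ hx hy
      | smul a x _ hx =>
        rw [Matrix.mulVec_smul]
        exact Submodule.smul_mem _ _ hx
    · intro h
      apply hv
      have h1 : b 1 ∈ Submodule.span ℂ (Set.range b) := Submodule.subset_span ⟨1, rfl⟩
      rw [h, Submodule.mem_bot] at h1
      simpa [b] using h1
  have h1 := finrank_range_le_card (R := ℂ) b
  rw [Set.finrank, hW, finrank_top, Module.finrank_fin_fun] at h1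
  rwa [Nat.card_eq_fintype_card]

theorem root_pow {n m : ℕ} {A : Matrix (Fin n) (Fin n) ℂ} (hA : A ^ m = 1) {μ : ℂ}
    (hμ : μ ∈ A.charpoly.roots) : μ ^ m = 1 := by
  have h1 : Module.End.HasEigenvalue (Matrix.toLin' A) μ := by
    rw [Module.End.hasEigenvalue_iff_isRoot_charpoly, Matrix.charpoly_toLin']
    exact (Polynomial.mem_roots'.1 hμ).2
  obtain ⟨v, hv⟩ := h1.exists_hasEigenvector
  have h2 := hv.pow_apply m
  rw [← Matrix.toLin'_pow, hA, Matrix.toLin'_one] at h2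
  have h3 : (μ ^ m - 1) • v = 0 := by
    rw [sub_smul, one_smul, ← h2]
    simp
  rcases smul_eq_zero.1 h3 with h | h
  · exact sub_eq_zero.1 h
  · exact absurd h hv.2

theorem finite_sums (m : ℕ) (hm : 0 < m) : {z : ℂ | ∃ s : Multiset ℂ, (∀ x ∈ s, x ^ m = 1) ∧
    s.card ≤ m ∧ z = s.sum}.Finite := by
  classical
  let R : Finset ℂ := (Polynomial.X ^ m - 1 : Polynomial ℂ).roots.toFinset
  have hR : ∀ x : ℂ, x ^ m = 1 → x ∈ R := by
    intro x hx
    have h0 : (Polynomial.X ^ m - 1 : Polynomial ℂ) ≠ 0 := by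
      have := Polynomial.monic_X_pow_sub_C (1 : ℂ) hm.ne'
      rw [Polynomial.C_1] at this
      exact this.ne_zero
    rw [Multiset.mem_toFinset, Polynomial.mem_roots h0]
    simp [hx]
  have hfin : (Set.range fun c : R → Fin (m + 1) => ∑ x : R, ((c x : ℕ) : ℂ) * (x : ℂ)).Finite :=
    Set.finite_range _
  refine hfin.subset ?_
  rintro z ⟨s, hs, hc, rfl⟩
  refine ⟨fun x => ⟨s.count (x : ℂ), Nat.lt_succ_of_le ((Multiset.count_le_card _ _).trans hc)⟩, ?_⟩
  show ∑ x : R, ((s.count (x : ℂ) : ℕ) : ℂ) * (x : ℂ) = s.sum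
  rw [Finset.sum_multiset_count, Finset.sum_coe_sort R (fun x => ((s.count x : ℕ) : ℂ) * x)]
  rw [Finset.sum_subset (s₁ := s.toFinset) (s₂ := R)]
  · exact Finset.sum_congr rfl fun x _ => (nsmul_eq_mul _ _).symm
  · intro x hx
    exact hR x (hs x (Multiset.mem_toFinset.1 hx))
  · intro x _ hx
    rw [Multiset.mem_toFinset] at hx
    rw [Multiset.count_eq_zero_of_notMem hx, zero_smul]

theorem finite_irr (G : Type) [Group G] [Finite G] : {f : G → ℂ | ∃ n : ℕ,
    ∃ ρ : G →* Matrix (Fin n) (Fin n) ℂ, 0 < n ∧ IsIrr ρ ∧ (f = fun g => (ρ g).trace)}.Finite := by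
  have h1 := finite_sums (Nat.card G) Nat.card_pos
  have h2 : (Set.pi Set.univ fun _ : G => {z : ℂ | ∃ s : Multiset ℂ,
    (∀ x ∈ s, x ^ (Nat.card G) = 1) ∧ s.card ≤ Nat.card G ∧ z = s.sum}).Finite :=
    Set.Finite.pi fun _ => h1
  refine h2.subset ?_
  rintro f ⟨n, ρ, hn, hi, rfl⟩ g -
  refine ⟨(ρ g).charpoly.roots, fun x hx => root_pow (A := ρ g) ?_ hx, ?_, ?_⟩
  · rw [← map_pow, pow_card_eq_one', map_one]
  · refine (Polynomial.card_roots' _).trans ?_
    rw [Matrix.charpoly_natDegree_eq_dim, Fintype.card_fin]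
    exact dim_le hn hi
  · exact Matrix.trace_eq_sum_roots_charpoly _

/-! ### bijections -/

theorem finite_pchar (p : ℕ) (G : Type) [Group G] [Finite G] : Finite {f : G → ℂ // IsPChar p G f} := by
  refine ((finite_irr G).subset ?_).to_subtype
  rintro f ⟨n, ρ, hn, hi, hf, -⟩
  exact ⟨n, ρ, hn, hi, hf⟩

/-- the degree -/
noncomputable def dg {G : Type} [Group G] (f : G → ℂ) : ℕ := ⌊(f 1).re⌋₊

theorem dg_eq {G : Type} [Group G] {f : G → ℂ} {n : ℕ} (h : f 1 = n) : dg f = n := by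
  rw [dg, h]
  simp

theorem trace_one {G : Type} [Group G] {n : ℕ} (ρ : G →* Matrix (Fin n) (Fin n) ℂ) :
    (fun g => (ρ g).trace) (1 : G) = (n : ℂ) := by
  simp

/-- `f ↦ f(1)^2` modulo `p` -/
noncomputable def sq {p : ℕ} {G : Type} [Group G] (f : {f : G → ℂ // IsPChar p G f}) : ZMod p :=
  (dg f.1 : ZMod p) ^ 2

theorem pchar_dg {p : ℕ} {G : Type} [Group G] {f : G → ℂ} (hf : IsPChar p G f) :
    f 1 = dg f ∧ ((dg f : ℕ) : ZMod p) ≠ 0 := by
  obtain ⟨n, ρ, hn, hi, hf, hd⟩ := hf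
  have h1 : f 1 = n := by
    rw [hf]
    exact trace_one ρ
  rw [dg_eq h1]
  exact ⟨h1, fun h => hd ((ZMod.natCast_eq_zero_iff n p).1 h)⟩

theorem mr_eq_fib {p : ℕ} [Fact p.Prime] {G : Type} [Group G] {r : ZMod p} (hr : r ≠ 0) :
    mr p r G = Nat.card {f : {f : G → ℂ // IsPChar p G f} // sq f = r ^ 2} := by
  refine Nat.card_congr
    { toFun := fun f => ⟨⟨f.1, ?_⟩, ?_⟩
      invFun := fun f => ⟨f.1.1, ?_⟩
      left_inv := fun f => rfl
      right_inv := fun f => rfl }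
  · obtain ⟨n, ρ, hn, hi, hf, hd⟩ := f.2
    refine ⟨n, ρ, hn, hi, hf, fun h => hr ?_⟩
    rw [(ZMod.natCast_eq_zero_iff n p).2 h] at hd
    rcases hd with h | h
    · exact h.symm
    · exact neg_eq_zero.1 h.symm
  · obtain ⟨n, ρ, hn, hi, hf, hd⟩ := f.2
    show (dg f.1 : ZMod p) ^ 2 = r ^ 2
    rw [dg_eq (n := n) (by rw [hf]; exact trace_one ρ)]
    exact sq_eq_sq_iff_eq_or_eq_neg.2 hd
  · have h1 := f.2
    obtain ⟨n, ρ, hn, hi, hf, hd⟩ := f.1.2
    refine ⟨n, ρ, hn, hi, hf, ?_⟩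
    change (dg f.1.1 : ZMod p) ^ 2 = r ^ 2 at h1
    rw [dg_eq (n := n) (by rw [hf]; exact trace_one ρ)] at h1
    exact sq_eq_sq_iff_eq_or_eq_neg.1 h1

/-- bijections with degrees congruent up to sign -/
def GoodBij (p : ℕ) (G H : Type) [Group G] [Group H] : Prop :=
  ∃ e : {f : G → ℂ // IsPChar p G f} ≃ {f : H → ℂ // IsPChar p H f},
    ∀ χ : {f : G → ℂ // IsPChar p G f}, ∃ m n : ℕ, χ.1 1 = m ∧ (e χ).1 1 = n ∧
      ((m : ZMod p) = n ∨ (m : ZMod p) = -(n : ZMod p))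

theorem goodBij_iff_sq {p : ℕ} [Fact p.Prime] {G H : Type} [Group G] [Group H] :
    GoodBij p G H ↔ ∃ e : {f : G → ℂ // IsPChar p G f} ≃ {f : H → ℂ // IsPChar p H f},
      ∀ χ, sq (e χ) = sq χ := by
  refine exists_congr fun e => forall_congr' fun χ => ?_
  obtain ⟨h1, -⟩ := pchar_dg χ.2
  obtain ⟨h2, -⟩ := pchar_dg (e χ).2
  constructor
  · rintro ⟨m, n, hm, hn, h⟩
    show (dg (e χ).1 : ZMod p) ^ 2 = (dg χ.1 : ZMod p) ^ 2
    rw [dg_eq hm, dg_eq hn]
    exact (sq_eq_sq_iff_eq_or_eq_neg.2 h).symm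
  · intro h
    exact ⟨_, _, h1, h2, sq_eq_sq_iff_eq_or_eq_neg.1 h.symm⟩

theorem goodBij_iff {p : ℕ} [Fact p.Prime] {G H : Type} [Group G] [Group H] [Finite G] [Finite H] :
    GoodBij p G H ↔ ∀ r : ZMod p, r ≠ 0 → mr p r G = mr p r H := by
  have := finite_pchar p G
  have := finite_pchar p H
  rw [goodBij_iff_sq]
  constructor
  · rintro ⟨e, he⟩ r hr
    rw [mr_eq_fib hr, mr_eq_fib hr]
    exact Nat.card_congr (e.subtypeEquiv fun χ => by rw [he])
  · intro h
    have key : ∀ t : ZMod p, Nonempty ({f : {f : G → ℂ // IsPChar p G f} // sq f = t} ≃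
        {f : {f : H → ℂ // IsPChar p H f} // sq f = t}) := by
      intro t
      by_cases ht : ∃ r : ZMod p, r ≠ 0 ∧ r ^ 2 = t
      · obtain ⟨r, hr, rfl⟩ := ht
        have h1 := h r hr
        rw [mr_eq_fib hr, mr_eq_fib hr] at h1
        exact Finite.card_eq.1 h1
      · have e1 : IsEmpty {f : {f : G → ℂ // IsPChar p G f} // sq f = t} :=
          ⟨fun f => ht ⟨_, (pchar_dg f.1.2).2, f.2⟩⟩
        have e2 : IsEmpty {f : {f : H → ℂ // IsPChar p H f} // sq f = t} :=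
          ⟨fun f => ht ⟨_, (pchar_dg f.1.2).2, f.2⟩⟩
        exact ⟨Equiv.equivOfIsEmpty _ _⟩
    let E := fun t => Classical.choice (key t)
    exact ⟨Equiv.ofFiberEquiv E, fun χ => Equiv.ofFiberEquiv_map E χ⟩

end Pool.Agent.TH195.KR
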