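import Pool.Agent.TH195.KR.McKay
import Pool.Agent.TH195.KR.Higman

set_option autoImplicit false

/-! Numbers of simple modules and of simple projective modules of `G × C`. -/

namespace Pool.Agent.TH195.KR

/-- simple modules, as representations on `k^n` -/
def IsSimpleRep {k G : Type} [Field k] [Group G] {n : ℕ}
    (ρ : Representation k G (Fin n → k)) : Prop :=
  0 < n ∧ ∀ W : Submodule k (Fin n → k), (∀ g : G, ∀ v ∈ W, ρ g v ∈ W) → W = ⊥ ∨ W = ⊤

/-- isomorphism -/
def Isom {k G : Type} [Field k] [Group G] (S : ∀ n : ℕ, Representation k G (Fin n → k) → Prop)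
    (a b : Σ n : ℕ, {ρ : Representation k G (Fin n → k) // S n ρ}) : Prop :=
  ∃ e : (Fin a.1 → k) ≃ₗ[k] (Fin b.1 → k),
    ∀ (g : G) (v : Fin a.1 → k), e (a.2.1 g v) = b.2.1 g (e v)

/-- the number of isomorphism classes of representations with property `S` -/
noncomputable def isoCount (k G : Type) [Field k] [Group G]
    (S : ∀ n : ℕ, Representation k G (Fin n → k) → Prop) : ℕ :=
  Nat.card (Quot (Isom S))

/-- `ℓ(G)`: the number of isomorphism classes of simple `kG`-modules -/
noncomputable def ell (k G : Type) [Field k] [Group G] : ℕ :=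
  isoCount k G (fun _ ρ => IsSimpleRep ρ)

/-- the number of isomorphism classes of simple projective `kG`-modules -/
noncomputable def ellP (k G : Type) [Field k] [Group G] : ℕ :=
  isoCount k G (fun _ ρ => IsSimpleRep ρ ∧ Module.Projective (MonoidAlgebra k G) ρ.asModule)

section

variable {k G H C : Type} [Field k] [Group G] [Group H] [CommGroup C]

theorem isom_equiv (S : ∀ n : ℕ, Representation k G (Fin n → k) → Prop) :
    Equivalence (Isom S) where
  refl a := ⟨LinearEquiv.refl k _, fun _ _ => rfl⟩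
  symm := by
    rintro a b ⟨e, he⟩
    refine ⟨e.symm, fun g v => ?_⟩
    apply e.injective
    rw [he, e.apply_symm_apply, e.apply_symm_apply]
  trans := by
    rintro a b c ⟨e, he⟩ ⟨f, hf⟩
    refine ⟨e.trans f, fun g v => ?_⟩
    rw [LinearEquiv.trans_apply, LinearEquiv.trans_apply, he, hf]

theorem isom_of_eq {S : ∀ n : ℕ, Representation k G (Fin n → k) → Prop}
    {a b : Σ n : ℕ, {ρ : Representation k G (Fin n → k) // S n ρ}}
    (h : Quot.mk (Isom S) a = Quot.mk (Isom S) b) : Isom S a b := by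
  have := Quot.eqvGen_exact h
  rwa [(isom_equiv S).eqvGen_iff] at this

/-- outer tensor product with a linear character -/
def tensR {n : ℕ} (ρ : Representation k G (Fin n → k)) (l : C →* kˣ) :
    Representation k (G × C) (Fin n → k) where
  toFun x := (l x.2 : k) • ρ x.1
  map_one' := by simp
  map_mul' x y := by
    rw [Prod.snd_mul, Prod.fst_mul, map_mul, map_mul, Units.val_mul, smul_mul_smul_comm]

theorem tensR_apply {n : ℕ} (ρ : Representation k G (Fin n → k)) (l : C →* kˣ) (x : G × C)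
    (v : Fin n → k) : tensR ρ l x v = (l x.2 : k) • ρ x.1 v := rfl

theorem tensR_simple {n : ℕ} {ρ : Representation k G (Fin n → k)} (hρ : IsSimpleRep ρ)
    (l : C →* kˣ) : IsSimpleRep (tensR ρ l) := by
  refine ⟨hρ.1, fun W hW => hρ.2 W fun g v hv => ?_⟩
  have := hW (g, 1) v hv
  rw [tensR_apply] at this
  simpa using this

theorem scalar_of_commR [IsAlgClosed k] {n : ℕ} {ρ : Representation k G (Fin n → k)}
    (hρ : IsSimpleRep ρ) (A : (Fin n → k) →ₗ[k] (Fin n → k)) (hA : ∀ g v, A (ρ g v) = ρ g (A v)) :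
    ∃ μ : k, ∀ v, A v = μ • v := by
  have : Nonempty (Fin n) := ⟨⟨0, hρ.1⟩⟩
  obtain ⟨μ, hμ⟩ := Module.End.exists_eigenvalue A
  refine ⟨μ, ?_⟩
  rcases hρ.2 (Module.End.eigenspace A μ) (fun g v hv => by
    rw [Module.End.mem_eigenspace_iff] at hv ⊢
    rw [hA, hv, map_smul]) with h | h
  · exact absurd h hμ
  · intro v
    rw [← Module.End.mem_eigenspace_iff, h]
    exact Submodule.mem_top

theorem exists_tensR [IsAlgClosed k] {n : ℕ} {ρ : Representation k (G × C) (Fin n → k)}
    (hρ : IsSimpleRep ρ) : ∃ (ρ' : Representation k G (Fin n → k)) (l : C →* kˣ),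
      IsSimpleRep ρ' ∧ ρ = tensR ρ' l := by
  have hn := hρ.1
  have h1 : ∀ c : C, ∃ μ : k, ∀ v, ρ (1, c) v = μ • v := by
    intro c
    refine scalar_of_commR hρ _ fun x v => ?_
    rw [← Module.End.mul_apply, ← Module.End.mul_apply, ← map_mul, ← map_mul]
    congr 2
    exact Prod.ext (by simp) (mul_comm _ _)
  choose μ hμ using h1
  let v0 : Fin n → k := Pi.single ⟨0, hn⟩ 1
  have hv0 : v0 ≠ 0 := by
    intro h
    have := congrFun h ⟨0, hn⟩
    simp [v0] at this
  have inj : ∀ a b : k, a • v0 = b • v0 → a = b := fun a b h => smul_left_injective k hv0 h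
  let m : C →* k :=
    { toFun := μ
      map_one' := by
        apply inj
        rw [← hμ 1, one_smul]
        have e : ((1, 1) : G × C) = 1 := rfl
        rw [e, map_one]
        rfl
      map_mul' := by
        intro a b
        apply inj
        rw [← hμ (a * b), mul_smul]
        have e : ((1, a * b) : G × C) = (1, a) * (1, b) := Prod.ext (by simp) rfl
        rw [e, map_mul, Module.End.mul_apply, hμ b, hμ a, smul_comm] }
  let ρ' : Representation k G (Fin n → k) := ρ.comp (MonoidHom.inl G C)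
  have hm : ∀ c, (m.toHomUnits c : k) = μ c := fun c => rfl
  have e : ρ = tensR ρ' m.toHomUnits := by
    refine MonoidHom.ext fun x => LinearMap.ext fun v => ?_
    show ρ x v = (m.toHomUnits x.2 : k) • ρ (x.1, 1) v
    have e1 : x = (1, x.2) * (x.1, 1) := Prod.ext (by simp) (by simp)
    rw [hm]
    conv_lhs => rw [e1]
    rw [map_mul, Module.End.mul_apply, hμ x.2]
  refine ⟨ρ', m.toHomUnits, ⟨hn, fun W hW => hρ.2 W fun x v hv => ?_⟩, e⟩
  rw [e]
  exact W.smul_mem _ (hW x.1 v hv)

theorem isoCount_prod {S : ∀ n : ℕ, Representation k G (Fin n → k) → Prop}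
    {S' : ∀ n : ℕ, Representation k (G × C) (Fin n → k) → Prop}
    (h0 : ∀ n ρ, S n ρ → 0 < n) (h1 : ∀ n ρ (l : C →* kˣ), S n ρ → S' n (tensR ρ l))
    (h2 : ∀ n ρ, S' n ρ → ∃ ρ' l, S n ρ' ∧ ρ = tensR ρ' l) :
    isoCount k (G × C) S' = isoCount k G S * Nat.card (C →* kˣ) := by
  unfold isoCount
  rw [← Nat.card_prod]
  refine (Nat.card_congr (Equiv.ofBijective (fun y : Quot (Isom S) × (C →* kˣ) =>
    Quot.map (rb := Isom S') (fun a => ⟨a.1, tensR a.2.1 y.2, h1 _ _ _ a.2.2⟩) ?_ y.1)
      ⟨?_, ?_⟩)).symm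
  · rintro a b ⟨e, he⟩
    refine ⟨e, fun g v => ?_⟩
    show e (tensR a.2.1 y.2 g v) = tensR b.2.1 y.2 g (e v)
    rw [tensR_apply, tensR_apply, map_smul, he]
  · rintro ⟨q1, l1⟩ ⟨q2, l2⟩ h
    obtain ⟨a, rfl⟩ := Quot.exists_rep q1
    obtain ⟨b, rfl⟩ := Quot.exists_rep q2
    obtain ⟨e, he⟩ := isom_of_eq h
    have he' : ∀ (g : G) (c : C) (v : Fin a.1 → k),
        (l1 c : k) • e (a.2.1 g v) = (l2 c : k) • b.2.1 g (e v) := by
      intro g c v
      have := he (g, c) v
      change e ((l1 c : k) • a.2.1 g v) = (l2 c : k) • b.2.1 g (e v) at this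
      rwa [map_smul] at this
    have h3 : Isom S a b := by
      refine ⟨e, fun g v => ?_⟩
      have := he' g 1 v
      simpa using this
    have h4 : l1 = l2 := by
      have hn := h0 _ _ a.2.2
      let v0 : Fin a.1 → k := Pi.single ⟨0, hn⟩ 1
      have hv0 : e v0 ≠ 0 := by
        intro h
        rw [LinearEquiv.map_eq_zero_iff] at h
        have := congrFun h ⟨0, hn⟩
        simp [v0] at this
      ext c
      have := he' 1 c v0
      rw [map_one, map_one, Module.End.one_apply, Module.End.one_apply] at this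
      exact smul_left_injective k hv0 this
    rw [Quot.sound h3, h4]
  · intro q
    obtain ⟨⟨n, ρ, hρ⟩, rfl⟩ := Quot.exists_rep q
    obtain ⟨ρ', l, h3, rfl⟩ := h2 n ρ hρ
    exact ⟨(Quot.mk _ ⟨n, ρ', h3⟩, l), rfl⟩

theorem proj_tensR [Fintype G] [Fintype C] (hC : (Fintype.card C : k) ≠ 0) {n : ℕ}
    (ρ : Representation k G (Fin n → k)) (l : C →* kˣ) :
    Module.Projective (MonoidAlgebra k (G × C)) (tensR ρ l).asModule ↔
      Module.Projective (MonoidAlgebra k G) ρ.asModule := by
  rw [higman, higman]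
  have key : ∀ (θ : (Fin n → k) →ₗ[k] (Fin n → k)) (v : Fin n → k),
      ∑ x : G × C, tensR ρ l x (θ (tensR ρ l x⁻¹ v)) =
        (Fintype.card C : k) • ∑ g : G, ρ g (θ (ρ g⁻¹ v)) := by
    intro θ v
    rw [Fintype.sum_prod_type, Finset.smul_sum]
    refine Finset.sum_congr rfl fun g _ => ?_
    have h : ∀ c : C, tensR ρ l (g, c) (θ (tensR ρ l (g, c)⁻¹ v)) = ρ g (θ (ρ g⁻¹ v)) := by
      intro c
      rw [tensR_apply, tensR_apply]
      show (l c : k) • ρ g (θ ((l c⁻¹ : k) • ρ g⁻¹ v)) = _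
      rw [map_smul, map_smul, smul_smul, ← Units.val_mul, ← map_mul, mul_inv_cancel, map_one,
        Units.val_one, one_smul]
    rw [Finset.sum_congr rfl fun c _ => h c, Finset.sum_const, Finset.card_univ, Nat.cast_smul_eq_nsmul]
  constructor
  · rintro ⟨θ, hθ⟩
    refine ⟨(Fintype.card C : k) • θ, fun v => Eq.trans ?_ (hθ v)⟩
    rw [key, Finset.smul_sum]
    refine Finset.sum_congr rfl fun g _ => ?_
    rw [LinearMap.smul_apply, map_smul]
  · rintro ⟨θ, hθ⟩
    refine ⟨(Fintype.card C : k)⁻¹ • θ, fun v => Eq.trans ?_ (hθ v)⟩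
    rw [key, Finset.smul_sum]
    refine Finset.sum_congr rfl fun g _ => ?_
    rw [LinearMap.smul_apply, map_smul, smul_smul, mul_inv_cancel₀ hC, one_smul]

/-- transport of a representation -/
def compR (e : G ≃* H) {n : ℕ} (ρ : Representation k H (Fin n → k)) :
    Representation k G (Fin n → k) := ρ.comp e.toMonoidHom

theorem compR_apply (e : G ≃* H) {n : ℕ} (ρ : Representation k H (Fin n → k)) (g : G)
    (v : Fin n → k) : compR e ρ g v = ρ (e g) v := rfl

theorem compR_symm (e : G ≃* H) {n : ℕ} (ρ : Representation k H (Fin n → k)) :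
    compR e.symm (compR e ρ) = ρ := by
  refine MonoidHom.ext fun g => LinearMap.ext fun v => ?_
  rw [compR_apply, compR_apply, e.apply_symm_apply]

theorem compR_symm' (e : G ≃* H) {n : ℕ} (ρ : Representation k G (Fin n → k)) :
    compR e (compR e.symm ρ) = ρ := by
  refine MonoidHom.ext fun g => LinearMap.ext fun v => ?_
  rw [compR_apply, compR_apply, e.symm_apply_apply]

theorem isoCount_congr (e : G ≃* H) {S : ∀ n : ℕ, Representation k G (Fin n → k) → Prop}
    {S' : ∀ n : ℕ, Representation k H (Fin n → k) → Prop}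
    (h : ∀ n (ρ : Representation k H (Fin n → k)), S' n ρ ↔ S n (compR e ρ)) :
    isoCount k G S = isoCount k H S' := by
  have h' : ∀ n (ρ : Representation k G (Fin n → k)), S n ρ → S' n (compR e.symm ρ) := by
    intro n ρ hρ
    rw [h, compR_symm']
    exact hρ
  let F : ∀ n : ℕ, {ρ : Representation k G (Fin n → k) // S n ρ} ≃
      {ρ : Representation k H (Fin n → k) // S' n ρ} := fun n =>
    { toFun := fun a => ⟨compR e.symm a.1, h' _ _ a.2⟩
      invFun := fun b => ⟨compR e b.1, (h _ _).1 b.2⟩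
      left_inv := fun a => Subtype.ext (compR_symm' e a.1)
      right_inv := fun b => Subtype.ext (compR_symm e b.1) }
  refine Nat.card_congr (Quot.congr (Equiv.sigmaCongrRight F) fun a b => ?_)
  have e1 : Isom S' (Equiv.sigmaCongrRight F a) (Equiv.sigmaCongrRight F b) ↔
      ∃ f : (Fin a.1 → k) ≃ₗ[k] (Fin b.1 → k), ∀ (g : H) (v : Fin a.1 → k),
        f (compR e.symm a.2.1 g v) = compR e.symm b.2.1 g (f v) := Iff.rfl
  rw [e1]
  refine exists_congr fun f => ?_
  constructor
  · intro hf g v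
    rw [compR_apply, compR_apply]
    exact hf (e.symm g) v
  · intro hf g v
    have := hf (e g) v
    rwa [compR_apply, compR_apply, e.symm_apply_apply] at this

theorem simple_comp (e : G ≃* H) {n : ℕ} (ρ : Representation k H (Fin n → k)) :
    IsSimpleRep ρ ↔ IsSimpleRep (compR e ρ) := by
  refine and_congr Iff.rfl (forall_congr' fun W => imp_congr ?_ Iff.rfl)
  constructor
  · intro h g v hv
    exact h (e g) v hv
  · intro h g v hv
    have := h (e.symm g) v hv
    rwa [compR_apply, e.apply_symm_apply] at this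

theorem proj_comp [Fintype G] [Fintype H] (e : G ≃* H) {n : ℕ}
    (ρ : Representation k H (Fin n → k)) :
    Module.Projective (MonoidAlgebra k H) ρ.asModule ↔
      Module.Projective (MonoidAlgebra k G) (compR e ρ).asModule := by
  rw [higman, higman]
  refine exists_congr fun θ => forall_congr' fun v => ?_
  have : ∑ h : H, ρ h (θ (ρ h⁻¹ v)) = ∑ g : G, compR e ρ g (θ (compR e ρ g⁻¹ v)) := by
    refine (Fintype.sum_equiv e.toEquiv _ _ fun g => ?_).symm
    rw [compR_apply, compR_apply, map_inv]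
    rfl
  rw [this]

theorem ell_prod [IsAlgClosed k] : ell k (G × C) = ell k G * Nat.card (C →* kˣ) :=
  isoCount_prod (fun _ _ h => h.1) (fun _ _ l h => tensR_simple h l)
    (fun _ _ h => exists_tensR h)

theorem ellP_prod [IsAlgClosed k] [Finite G] [Finite C] (hC : (Nat.card C : k) ≠ 0) :
    ellP k (G × C) = ellP k G * Nat.card (C →* kˣ) := by
  have := Fintype.ofFinite G
  have := Fintype.ofFinite C
  rw [Nat.card_eq_fintype_card] at hC
  refine isoCount_prod (fun _ _ h => h.1.1)
    (fun _ ρ l h => ⟨tensR_simple h.1 l, (proj_tensR hC ρ l).2 h.2⟩) (fun _ _ h => ?_)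
  obtain ⟨ρ', l, h1, rfl⟩ := exists_tensR h.1
  exact ⟨ρ', l, ⟨h1, (proj_tensR hC ρ' l).1 h.2⟩, rfl⟩

theorem ellP_congr [Finite G] [Finite H] (e : G ≃* H) : ellP k G = ellP k H := by
  have := Fintype.ofFinite G
  have := Fintype.ofFinite H
  exact isoCount_congr e fun n ρ => and_congr (simple_comp e ρ) (proj_comp e ρ)

theorem card_dual [IsAlgClosed k] [Finite C] (hC : (Nat.card C : k) ≠ 0) :
    Nat.card (C →* kˣ) = Nat.card C := by
  have h1 : ((Monoid.exponent C : ℕ) : k) ≠ 0 := by
    intro h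
    obtain ⟨m, hm⟩ := Group.exponent_dvd_nat_card (G := C)
    apply hC
    rw [hm, Nat.cast_mul, h, zero_mul]
  have hN : NeZero ((Monoid.exponent C : ℕ) : k) := ⟨h1⟩
  exact CommGroup.card_monoidHom_of_hasEnoughRootsOfUnity C k

/-- `N_G(Q)/Q` -/
abbrev NQ (Q : Subgroup G) : Type :=
  Subgroup.normalizer (Q : Set G) ⧸ Q.subgroupOf (Subgroup.normalizer (Q : Set G))

/-- `N_{G × C}(Q × 1)/(Q × 1)` is `N_G(Q)/Q × C` -/
noncomputable def nqEquiv (Q : Subgroup G) : NQ (up Q : Subgroup (G × C)) ≃* NQ Q × C := by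
  let φ : Subgroup.normalizer ((up Q : Subgroup (G × C)) : Set (G × C)) →* NQ Q × C :=
    (MonoidHom.prodMap (QuotientGroup.mk' (Q.subgroupOf (Subgroup.normalizer (Q : Set G))))
      (MonoidHom.id C)).comp (normEquiv Q).toMonoidHom
  have hφ : Function.Surjective φ := by
    intro y
    obtain ⟨x, hx⟩ := QuotientGroup.mk_surjective y.1
    refine ⟨(normEquiv Q).symm (x, y.2), ?_⟩
    exact Prod.ext hx rfl
  have hk : (up Q : Subgroup (G × C)).subgroupOf
      (Subgroup.normalizer ((up Q : Subgroup (G × C)) : Set (G × C))) = φ.ker := by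
    ext x
    rw [Subgroup.mem_subgroupOf, mem_up, MonoidHom.mem_ker]
    show _ ↔ ((QuotientGroup.mk (s := Q.subgroupOf (Subgroup.normalizer (Q : Set G)))
      (normEquiv Q x).1, (normEquiv Q x).2) : NQ Q × C) = 1
    rw [Prod.mk_eq_one, QuotientGroup.eq_one_iff, Subgroup.mem_subgroupOf]
    exact Iff.rfl
  exact (QuotientGroup.quotientMulEquivOfEq hk).trans
    (QuotientGroup.quotientKerEquivOfSurjective φ hφ)

end

end Pool.Agent.TH195.KR
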